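import Pool.Agent.K4H40.NS.Spec

/-!
Decomposition of the forms of degree `d + 1` in `J = (I, θ)`.
-/

set_option autoImplicit false

namespace Pool.Agent.K4H40.NS

open MvPolynomial Module

/-- the component of degree `d + 1` of `θ * g` for a linear form `θ` -/
theorem hc_lin_mul {n : ℕ} {K : Type} [Field K] (t : R n K) (ht : t ∈ hs n K 1) (g : R n K)
    (d : ℕ) : homogeneousComponent (d + 1) (t * g) = t * homogeneousComponent d g := by
  have h1 : t * g = ∑ j ∈ Finset.range (g.totalDegree + 1), t * homogeneousComponent j g := by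
    rw [← Finset.mul_sum, sum_homogeneousComponent]
  rw [h1, map_sum]
  have h2 : ∀ j, homogeneousComponent (d + 1) (t * homogeneousComponent j g) =
      if j = d then t * homogeneousComponent j g else 0 := by
    intro j
    have hj : t * homogeneousComponent j g ∈ homogeneousSubmodule (Fin n) K (1 + j) := by
      rw [mem_homogeneousSubmodule] at *
      exact IsHomogeneous.mul ht (homogeneousComponent_isHomogeneous j g)
    rw [homogeneousComponent_of_mem hj]
    by_cases h : j = d
    · subst h
      rw [if_pos (by omega), if_pos rfl]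
    · rw [if_neg (by omega), if_neg h]
  simp only [h2]
  rw [Finset.sum_ite_eq']
  split_ifs with h
  · rfl
  · have : g.totalDegree < d := by
      simp only [Finset.mem_range, not_lt] at h
      omega
    rw [homogeneousComponent_eq_zero d g this, mul_zero]

theorem dec : StDEC := by
  intro n k K _ I s hI d
  apply le_antisymm
  · intro f hf
    obtain ⟨hfJ, hfd⟩ := hf
    have hfJ' : f ∈ I ⊔ Ideal.span (Set.range s.θ) := hfJ
    obtain ⟨i, hi, t, ht, rfl⟩ := Submodule.mem_sup.1 hfJ'
    have he : i + t = homogeneousComponent (d + 1) i + homogeneousComponent (d + 1) t := by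
      rw [← map_add]
      have := homogeneousComponent_of_mem (m := d + 1) hfd
      rw [this, if_pos rfl]
    rw [he]
    refine Submodule.add_mem_sup ?_ ?_
    · exact ⟨hI i hi (d + 1), homogeneousComponent_mem (d + 1) i⟩
    · obtain ⟨c, rfl⟩ := Ideal.mem_span_range_iff_exists_fun.1 ht
      rw [map_sum]
      refine Submodule.sum_mem _ fun j _ => ?_
      rw [mul_comm, hc_lin_mul _ (s.θ_lin j)]
      exact Submodule.subset_span ⟨j, _, homogeneousComponent_mem d (c j), rfl⟩
  · refine sup_le ?_ ?_
    · rintro f ⟨hf, hfd⟩
      exact ⟨Ideal.mem_sup_left hf, hfd⟩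
    · refine Submodule.span_le.2 ?_
      rintro p ⟨i, f, hf, rfl⟩
      refine ⟨?_, ?_⟩
      · exact Ideal.mem_sup_right (Ideal.mul_mem_right _ _ (Ideal.subset_span ⟨i, rfl⟩))
      · have h1 := s.θ_lin i
        show s.θ i * f ∈ homogeneousSubmodule (Fin n) K (d + 1)
        rw [mem_homogeneousSubmodule] at *
        have := IsHomogeneous.mul h1 hf
        rwa [add_comm] at this

end Pool.Agent.K4H40.NS
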